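import Pool.Agent.Run7.h473.MD.Iface

/-! # Piece SER of the project MD (helper67) -/

set_option autoImplicit false

open MeasureTheory Set Filter Topology
open Pool.Agent.Q48.MDS

namespace Pool.Agent.Run7.h67.MD

theorem t_SER : Pool.Agent.Run7.h473.MD.S_SER := by
  intro n Ω f hΩ hd hb
  constructor
  · have hloc : ∀ z₀ ∈ tube Ω, ∃ V ∈ 𝓝 z₀, ∃ b : ℕ → ℝ, Summable b ∧
        ∀ z ∈ V, ∀ m, ‖f m z‖ ≤ b m := by
      intro z₀ hz₀
      obtain ⟨r, hr, hrs⟩ := Metric.nhds_basis_closedBall.mem_iff.1 (hΩ.mem_nhds hz₀)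
      obtain ⟨C, N, u, hu, hbd⟩ := hb _ hrs (isCompact_closedBall _ _)
      set T : ℝ := ‖fun i => (z₀ i).im‖ + 1 with hT
      have hT0 : 0 ≤ T := by positivity
      refine ⟨{z | (fun i => (z i).re) ∈ Metric.closedBall (fun i => (z₀ i).re) r} ∩
        {z | ‖fun i => (z i).im‖ < T}, ?_, fun m => C * u m * (1 + T) ^ N,
        (hu.mul_left C).mul_right _, ?_⟩
      · refine inter_mem ?_ ?_
        · exact continuous_re'.continuousAt (Metric.closedBall_mem_nhds _ hr)
        · refine IsOpen.mem_nhds ?_ ?_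
          · refine isOpen_lt ?_ continuous_const
            exact (continuous_pi fun i =>
              Complex.continuous_im.comp (continuous_apply i)).norm
          · show ‖fun i => (z₀ i).im‖ < T
            rw [hT]; linarith
      · rintro z ⟨hz1, hz2⟩ m
        have h1 := hbd m z hz1
        have hz2' : ‖fun i => (z i).im‖ < T := hz2
        have h2 : 0 ≤ C * (1 + ‖fun i => (z i).im‖) ^ N * u m := (norm_nonneg _).trans h1
        have h3 : 0 < (1 + ‖fun i => (z i).im‖) ^ N := by positivity
        have h4 : 0 ≤ C * u m := by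
          by_contra h5
          push Not at h5
          have : C * (1 + ‖fun i => (z i).im‖) ^ N * u m =
            (C * u m) * (1 + ‖fun i => (z i).im‖) ^ N := by ring
          rw [this] at h2
          exact absurd h2 (not_le.2 (mul_neg_of_neg_of_pos h5 h3))
        calc ‖f m z‖ ≤ (C * u m) * (1 + ‖fun i => (z i).im‖) ^ N := by linarith
          _ ≤ (C * u m) * (1 + T) ^ N := by gcongr
    have h1 := differentiableOn_integral (μ := Measure.count) (isOpen_tube hΩ)
      (fun z m => f m z) hd (fun z _ => (measurable_of_countable _).aestronglyMeasurable) (by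
        intro z₀ hz₀
        obtain ⟨V, hV, b, hbs, hbb⟩ := hloc z₀ hz₀
        exact ⟨V, hV, b, integrable_count_iff.2 hbs.norm, hbb⟩)
    refine h1.congr fun z hz => ?_
    obtain ⟨V, hV, b, hbs, hbb⟩ := hloc z hz
    have h2 : Summable (fun m => f m z) :=
      Summable.of_norm_bounded hbs (hbb z (mem_of_mem_nhds hV))
    rw [integral_countable (integrable_count_iff.2 h2.norm)]
    refine tsum_congr fun m => ?_
    simp
  · intro K hK hc
    obtain ⟨C, N, u, hu, hbd⟩ := hb K hK hc
    refine ⟨C * ∑' m, u m, N, fun z hz => ?_⟩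
    have h1 : HasSum (fun m => C * (1 + ‖fun i => (z i).im‖) ^ N * u m)
      (C * (1 + ‖fun i => (z i).im‖) ^ N * ∑' m, u m) := hu.hasSum.mul_left _
    refine (tsum_of_norm_bounded h1 fun m => hbd m z hz).trans (le_of_eq ?_)
    ring

end Pool.Agent.Run7.h67.MD
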